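import Mathlib

/-!
# Decision trees for 3SUM with real numbers: the model

The input is a list of real numbers with indices in a finite set `I`. A linear family of lists is
given by vectors `u i`, `i ∈ I`: the list with the parameters `y` is `x_i = ∑ p, u i p * y p`. A test is
free if it is locally constant near the lists of the family with parameters in a dense set.
(The model and the proofs are adapted from the starting files `Pool/Agent/N575/LDT` on Exact Triangle.)
-/

set_option autoImplicit false

namespace Pool.Agent.K9h36.LT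

open Filter Topology

/-- the list of the family `u` with the parameters `y` -/
def fam {I P : Type} [Fintype P] (u : I → P → ℝ) (y : P → ℝ) : I → ℝ := fun i => ∑ p, u i p * y p

/-- the sum of the numbers with indices in `s` -/
def wt {I : Type} (x : I → ℝ) (s : Finset I) : ℝ := ∑ i ∈ s, x i

/-- the sets of three indices for which the sum is zero for all lists of the family -/
noncomputable def zeros {I P : Type} [Fintype I] (u : I → P → ℝ) : Finset (Finset I) :=
  open Classical in (Finset.univ.powersetCard 3).filter fun s => ∑ i ∈ s, u i = 0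

/-- a function of the list which is locally constant near the lists of the family whose parameters
are in some dense set -/
def Shallow {I P : Type} [Fintype P] (u : I → P → ℝ) (f : (I → ℝ) → ℤ) : Prop :=
  Dense {y : P → ℝ | ∀ᶠ x in 𝓝 (fam u y), f x = f (fam u y)}

/-- Decision trees. A node asks for the value of a shallow function, for the sign of the sum of
three numbers of the list, or for the sign of any polynomial of degree at most one in the numbers.
The tree may be infinite, but each of its branches is finite. -/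
inductive Tree {I P : Type} [Fintype P] (u : I → P → ℝ) : Type
  | leaf (b : Bool) : Tree u
  | free (f : (I → ℝ) → ℤ) (hf : Shallow u f) (next : ℤ → Tree u) : Tree u
  | tri (s : Finset I) (hs : s.card = 3) (next : SignType → Tree u) : Tree u
  | lin (L : I → ℝ) (c : ℝ) (next : SignType → Tree u) : Tree u

variable {I P : Type} [Fintype I] [Fintype P] {u : I → P → ℝ}

/-- the answer -/
noncomputable def Tree.run : Tree u → (I → ℝ) → Bool
  | .leaf b, _ => b
  | .free f _ next, x => (next (f x)).run x
  | .tri s _ next, x => (next (SignType.sign (wt x s))).run x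
  | .lin L c next, x => (next (SignType.sign (∑ i, L i * x i + c))).run x

/-- the number of the tests of sums of three numbers which are made for the list `x` -/
noncomputable def Tree.tris : Tree u → (I → ℝ) → ℕ
  | .leaf _, _ => 0
  | .free f _ next, x => (next (f x)).tris x
  | .tri s _ next, x => (next (SignType.sign (wt x s))).tris x + 1
  | .lin L c next, x => (next (SignType.sign (∑ i, L i * x i + c))).tris x

/-- the number of the tests `lin` which are made for the list `x` -/
noncomputable def Tree.lins : Tree u → (I → ℝ) → ℕ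
  | .leaf _, _ => 0
  | .free f _ next, x => (next (f x)).lins x
  | .tri s _ next, x => (next (SignType.sign (wt x s))).lins x
  | .lin L c next, x => (next (SignType.sign (∑ i, L i * x i + c))).lins x + 1

/-! ### simulation near the family -/

omit [Fintype P] in
theorem mem_zeros {s : Finset I} : s ∈ zeros u ↔ s.card = 3 ∧ ∑ i ∈ s, u i = 0 := by
  unfold zeros
  simp only [Finset.mem_filter, Finset.mem_powersetCard, Finset.subset_univ, true_and]

omit [Fintype I] in
theorem wt_fam_eq (y : P → ℝ) (s : Finset I) : wt (fam u y) s = ∑ p, (∑ i ∈ s, u i) p * y p := by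
  unfold wt fam
  rw [Finset.sum_comm]
  refine Finset.sum_congr rfl fun p _ => ?_
  rw [Finset.sum_apply, Finset.sum_mul]

theorem wt_fam (y : P → ℝ) {s : Finset I} (hs : s ∈ zeros u) : wt (fam u y) s = 0 := by
  rw [wt_fam_eq, (mem_zeros.1 hs).2]
  simp

omit [Fintype I] in
theorem wt_add (x v : I → ℝ) (s : Finset I) : wt (x + v) s = wt x s + wt v s := by
  unfold wt
  simp only [Pi.add_apply]
  exact Finset.sum_add_distrib

omit [Fintype I] in
theorem wt_smul (ε : ℝ) (v : I → ℝ) (s : Finset I) : wt (ε • v) s = ε * wt v s := by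
  unfold wt
  simp only [Pi.smul_apply, smul_eq_mul]
  rw [Finset.mul_sum]

theorem wt_add_smul (y : P → ℝ) (ε : ℝ) (v : I → ℝ) {s : Finset I} (hs : s ∈ zeros u) :
    wt (fam u y + ε • v) s = ε * wt v s := by
  rw [wt_add, wt_fam y hs, zero_add, wt_smul]

theorem lin_add_smul (L : I → ℝ) (p v : I → ℝ) (ε : ℝ) :
    ∑ i, L i * (p + ε • v) i = ∑ i, L i * p i + ε * ∑ i, L i * v i := by
  simp only [Pi.add_apply, Pi.smul_apply, smul_eq_mul, mul_add, Finset.sum_add_distrib,
    Finset.mul_sum]
  congr 1
  exact Finset.sum_congr rfl fun i _ => by ring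

omit [Fintype I] in
theorem fam_continuous : Continuous (fam u) := by
  refine continuous_pi fun i => ?_
  unfold fam
  fun_prop

omit [Fintype I] in
theorem wt_continuous (s : Finset I) : Continuous fun x : I → ℝ => wt x s := by
  unfold wt
  fun_prop

omit [Fintype I] in
theorem tendsto_line (p v : I → ℝ) : Tendsto (fun ε : ℝ => p + ε • v) (𝓝[>] 0) (𝓝 p) := by
  have h : Tendsto (fun ε : ℝ => p + ε • v) (𝓝 0) (𝓝 (p + (0 : ℝ) • v)) :=
    (continuous_const.add (continuous_id.smul continuous_const)).tendsto 0
  rw [zero_smul, add_zero] at h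
  exact h.mono_left nhdsWithin_le_nhds

omit [Fintype I] [Fintype P] in
theorem sign_near {f : (I → ℝ) → ℝ} (hf : Continuous f) {p : I → ℝ} (h0 : f p ≠ 0) :
    ∀ᶠ x in 𝓝 p, SignType.sign (f x) = SignType.sign (f p) := by
  rcases lt_or_gt_of_ne h0 with h | h
  · filter_upwards [hf.continuousAt.eventually (gt_mem_nhds h)] with x hx
    rw [sign_neg hx, sign_neg h]
  · filter_upwards [hf.continuousAt.eventually (lt_mem_nhds h)] with x hx
    rw [sign_pos hx, sign_pos h]

/-- what the tree does near the list with the parameters `y` in the direction `v` -/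
def Good (t : Tree u) (y : P → ℝ) : Prop :=
  ∀ v₀ : I → ℝ, ∃ (V : List (Finset I)) (Ls : List (I → ℝ)) (b : Bool), ∀ v : I → ℝ,
    (∀ s ∈ V, s ∈ zeros u → SignType.sign (wt v s) = SignType.sign (wt v₀ s)) →
    (∀ L ∈ Ls, ∑ i, L i * v i = ∑ i, L i * v₀ i) →
    ∀ᶠ ε in 𝓝[>] (0 : ℝ), t.run (fam u y + ε • v) = b ∧ t.tris (fam u y + ε • v) = V.length ∧
      t.lins (fam u y + ε • v) = Ls.length

omit [Fintype I] in
theorem shallow_residual {f : (I → ℝ) → ℤ} (hf : Shallow u f) :
    ∀ᶠ y in residual (P → ℝ), ∀ᶠ x in 𝓝 (fam u y), f x = f (fam u y) := by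
  refine residual_of_dense_open ?_ hf
  rw [isOpen_iff_mem_nhds]
  intro y hy
  have h1 := (fam_continuous (u := u)).continuousAt.eventually (eventually_eventually_nhds.2 hy)
  filter_upwards [h1] with z hz
  have h2 : f (fam u z) = f (fam u y) := hz.self_of_nhds
  show ∀ᶠ x in 𝓝 (fam u z), f x = f (fam u z)
  filter_upwards [hz] with x hx
  rw [hx, h2]

theorem sign_mul_pos {ε a : ℝ} (h : 0 < ε) : SignType.sign (ε * a) = SignType.sign a := by
  rw [sign_mul, sign_pos h, one_mul]

/-- the zeros of a linear form `≠ 0` are rare -/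
theorem lin_residual {w : P → ℝ} (hw : w ≠ 0) :
    ∀ᶠ y in residual (P → ℝ), ∑ p, w p * y p ≠ 0 := by
  refine residual_of_dense_open ?_ ?_
  · exact isOpen_ne_fun (by fun_prop) continuous_const
  · intro y
    by_cases h : ∑ p, w p * y p = 0
    · refine mem_closure_of_tendsto (tendsto_line y w) ?_
      filter_upwards [self_mem_nhdsWithin] with ε hε
      have hε' : (0 : ℝ) < ε := hε
      show ∑ p, w p * (y + ε • w) p ≠ 0
      rw [lin_add_smul, h, zero_add]
      obtain ⟨p, hp⟩ := Function.ne_iff.1 hw
      have h1 : 0 < ∑ p, w p * w p := Finset.sum_pos' (fun p _ => mul_self_nonneg _)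
        ⟨p, Finset.mem_univ p, mul_self_pos.2 hp⟩
      positivity
    · exact subset_closure h

/-- the sums of three numbers which are not always zero -/
theorem reg_residual : ∀ᶠ y in residual (P → ℝ), ∀ s : Finset I, s.card = 3 → s ∉ zeros u →
    wt (fam u y) s ≠ 0 := by
  classical
  refine eventually_countable_forall.2 fun s => ?_
  by_cases h : s.card = 3 ∧ s ∉ zeros u
  · have hw : ∑ i ∈ s, u i ≠ 0 := fun h0 => h.2 (mem_zeros.2 ⟨h.1, h0⟩)
    filter_upwards [lin_residual hw] with y hy _ _
    rw [wt_fam_eq]
    exact hy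
  · exact Eventually.of_forall fun y h1 h2 => absurd ⟨h1, h2⟩ h

theorem good (t : Tree u) : ∀ᶠ y in residual (P → ℝ), Good t y := by
  induction t with
  | leaf b =>
    refine Eventually.of_forall fun y v₀ => ⟨[], [], b, fun v _ _ => ?_⟩
    exact Eventually.of_forall fun ε => ⟨rfl, rfl, rfl⟩
  | free f hf next ih =>
    filter_upwards [shallow_residual hf, eventually_countable_forall.2 ih] with y h1 h2 v₀
    obtain ⟨V, Ls, b, h3⟩ := h2 (f (fam u y)) v₀
    refine ⟨V, Ls, b, fun v hV hL => ?_⟩
    filter_upwards [h3 v hV hL, (tendsto_line (fam u y) v).eventually h1] with ε h4 h5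
    unfold Tree.run Tree.tris Tree.lins
    rw [h5]
    exact h4
  | tri s hs next ih =>
    filter_upwards [eventually_countable_forall.2 ih, reg_residual (I := I) (u := u)] with y h2 hr v₀
    by_cases hz : s ∈ zeros u
    · obtain ⟨V, Ls, b, h3⟩ := h2 (SignType.sign (wt v₀ s)) v₀
      refine ⟨s :: V, Ls, b, fun v hV hL => ?_⟩
      filter_upwards [h3 v (fun s hs => hV s (List.mem_cons_of_mem _ hs)) hL,
        self_mem_nhdsWithin] with ε h4 h5
      have h6 : SignType.sign (wt (fam u y + ε • v) s) = SignType.sign (wt v₀ s) := by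
        rw [wt_add_smul y ε v hz, sign_mul_pos h5]
        exact hV s List.mem_cons_self hz
      unfold Tree.run Tree.tris Tree.lins
      rw [h6, h4.1, h4.2.1, h4.2.2]
      exact ⟨rfl, rfl, rfl⟩
    · obtain ⟨V, Ls, b, h3⟩ := h2 (SignType.sign (wt (fam u y) s)) v₀
      refine ⟨s :: V, Ls, b, fun v hV hL => ?_⟩
      have h7 := sign_near (wt_continuous s) (hr s hs hz)
      filter_upwards [h3 v (fun s hs => hV s (List.mem_cons_of_mem _ hs)) hL,
        (tendsto_line (fam u y) v).eventually h7] with ε h4 h5
      unfold Tree.run Tree.tris Tree.lins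
      rw [h5, h4.1, h4.2.1, h4.2.2]
      exact ⟨rfl, rfl, rfl⟩
  | lin L c next ih =>
    filter_upwards [eventually_countable_forall.2 ih] with y h2 v₀
    by_cases h0 : ∑ i, L i * fam u y i + c = 0
    · obtain ⟨V, Ls, b, h3⟩ := h2 (SignType.sign (∑ i, L i * v₀ i)) v₀
      refine ⟨V, L :: Ls, b, fun v hV hL => ?_⟩
      filter_upwards [h3 v hV (fun s hs => hL s (List.mem_cons_of_mem _ hs)),
        self_mem_nhdsWithin] with ε h4 h5
      have h6 : SignType.sign (∑ i, L i * (fam u y + ε • v) i + c) =
          SignType.sign (∑ i, L i * v₀ i) := by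
        have h8 : ∑ i, L i * (fam u y + ε • v) i + c = ε * ∑ i, L i * v i := by
          rw [lin_add_smul]
          linear_combination h0
        rw [h8, sign_mul_pos h5, hL L List.mem_cons_self]
      unfold Tree.run Tree.tris Tree.lins
      rw [h6, h4.1, h4.2.1, h4.2.2]
      exact ⟨rfl, rfl, rfl⟩
    · obtain ⟨V, Ls, b, h3⟩ := h2 (SignType.sign (∑ i, L i * fam u y i + c)) v₀
      refine ⟨V, L :: Ls, b, fun v hV hL => ?_⟩
      have hc : Continuous (fun x : I → ℝ => ∑ i, L i * x i + c) := by fun_prop
      have h7 := sign_near hc h0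
      filter_upwards [h3 v hV (fun s hs => hL s (List.mem_cons_of_mem _ hs)),
        (tendsto_line (fam u y) v).eventually h7] with ε h4 h5
      unfold Tree.run Tree.tris Tree.lins
      rw [h5, h4.1, h4.2.1, h4.2.2]
      exact ⟨rfl, rfl, rfl⟩

end Pool.Agent.K9h36.LT
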