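import Mathlib
import Pool.Agent.K9h36.LT.Model

/-!
# Linear algebra: few linear forms are nearly orthogonal to most triples
-/

set_option autoImplicit false

namespace Pool.Agent.K9h36.LT

open Finset

variable {I P : Type} [Fintype I] [DecidableEq I] {u : I → P → ℝ}

/-- the space of lists with the standard inner product -/
abbrev HW (I : Type) : Type := EuclideanSpace ℝ I

/-- the indicator vector of a set of indices -/
noncomputable def ind (s : Finset I) : HW I := WithLp.toLp 2 fun i => if i ∈ s then 1 else 0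

omit [DecidableEq I] in
theorem inner_eq (x y : HW I) : inner ℝ x y = ∑ i, x i * y i := by
  rw [PiLp.inner_apply]
  refine Finset.sum_congr rfl fun i _ => ?_
  simp [mul_comm]

theorem inner_ind (s : Finset I) (w : HW I) : inner ℝ (ind s) w = wt (fun i => w i) s := by
  rw [inner_eq]
  unfold ind wt
  simp only [ite_mul, one_mul, zero_mul]
  rw [Finset.sum_ite_mem, Finset.univ_inter]

theorem ind_inner (s : Finset I) (w : HW I) : inner ℝ w (ind s) = wt (fun i => w i) s := by
  rw [real_inner_comm, inner_ind]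

theorem inner_ind_ind (s t : Finset I) : inner ℝ (ind s) (ind t) = ((s ∩ t).card : ℝ) := by
  rw [inner_ind]
  unfold ind wt
  simp only
  rw [Finset.sum_ite_mem, Finset.sum_const, nsmul_eq_mul, mul_one]

theorem ind_self {s : Finset I} (hs : s.card = 3) : inner ℝ (ind s) (ind s) = 3 := by
  rw [inner_ind_ind, Finset.inter_self, hs]
  norm_num

/-- two different triples have at most one common index -/
theorem inter_le (hu : Function.Injective u) {s t : Finset I} (hs : s ∈ zeros u)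
    (ht : t ∈ zeros u) (h : s ≠ t) : (s ∩ t).card ≤ 1 := by
  obtain ⟨hs3, hs0⟩ := mem_zeros.1 hs
  obtain ⟨ht3, ht0⟩ := mem_zeros.1 ht
  by_contra hc
  push Not at hc
  have h1 : (s \ t).card + (s ∩ t).card = 3 := by rw [Finset.card_sdiff_add_card_inter, hs3]
  have h2 : (t \ s).card + (t ∩ s).card = 3 := by rw [Finset.card_sdiff_add_card_inter, ht3]
  rw [Finset.inter_comm t s] at h2
  by_cases h3 : (s \ t).card = 0
  · have h4 : s ⊆ t := Finset.sdiff_eq_empty_iff_subset.1 (Finset.card_eq_zero.1 h3)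
    exact h (Finset.eq_of_subset_of_card_le h4 (by omega))
  · have h5 : (s \ t).card = 1 := by omega
    have h6 : (t \ s).card = 1 := by omega
    obtain ⟨a, ha⟩ := Finset.card_eq_one.1 h5
    obtain ⟨b, hb⟩ := Finset.card_eq_one.1 h6
    have e1 : ∑ i ∈ s, u i = u a + ∑ i ∈ s ∩ t, u i := by
      rw [← Finset.sum_sdiff (Finset.inter_subset_left (s₁ := s) (s₂ := t)), Finset.sdiff_inter_self_left,
        ha, Finset.sum_singleton]
    have e2 : ∑ i ∈ t, u i = u b + ∑ i ∈ s ∩ t, u i := by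
      rw [← Finset.sum_sdiff (Finset.inter_subset_right (s₁ := s) (s₂ := t)), Finset.sdiff_inter_self_right,
        hb, Finset.sum_singleton]
    have e3 : u a = u b := by
      have e4 : u a + ∑ i ∈ s ∩ t, u i = u b + ∑ i ∈ s ∩ t, u i := by rw [← e1, ← e2, hs0, ht0]
      exact add_right_cancel e4
    have e5 := hu e3
    have ha' : a ∈ s \ t := by rw [ha]; exact Finset.mem_singleton_self a
    have hb' : b ∈ t \ s := by rw [hb]; exact Finset.mem_singleton_self b
    rw [e5] at ha'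
    exact (Finset.mem_sdiff.1 ha').2 (Finset.mem_sdiff.1 hb').1

/-- the sums of all triples together -/
theorem sum_wt_sq {D : ℕ} (hD : ∀ i, ((zeros u).filter fun s => i ∈ s).card ≤ D) (w : I → ℝ) :
    ∑ s ∈ zeros u, wt w s ^ 2 ≤ 3 * D * ∑ i, w i ^ 2 := by
  have h1 : ∀ s ∈ zeros u, wt w s ^ 2 ≤ 3 * ∑ i ∈ s, w i ^ 2 := by
    intro s hs
    have h2 := sq_sum_le_card_mul_sum_sq (s := s) (f := w)
    rw [(mem_zeros.1 hs).1] at h2
    exact_mod_cast h2
  refine (sum_le_sum h1).trans ?_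
  rw [← mul_sum]
  have h3 : ∑ s ∈ zeros u, ∑ i ∈ s, w i ^ 2 =
      ∑ i, (((zeros u).filter fun s => i ∈ s).card : ℝ) * w i ^ 2 := by
    have h4 : ∀ s : Finset I, ∑ i ∈ s, w i ^ 2 = ∑ i, if i ∈ s then w i ^ 2 else 0 := by
      intro s
      rw [Finset.sum_ite_mem, Finset.univ_inter]
    rw [sum_congr rfl fun s _ => h4 s, sum_comm]
    refine sum_congr rfl fun i _ => ?_
    rw [← Finset.sum_filter, sum_const, nsmul_eq_mul]
  rw [h3]
  have h5 : ∑ i, (((zeros u).filter fun s => i ∈ s).card : ℝ) * w i ^ 2 ≤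
      ∑ i, (D : ℝ) * w i ^ 2 := by
    refine sum_le_sum fun i _ => mul_le_mul_of_nonneg_right ?_ (sq_nonneg _)
    exact_mod_cast hD i
  rw [← mul_sum] at h5
  nlinarith

/-- the sum of the squares of the projections of the triples to a subspace -/
theorem sum_proj {D : ℕ} (hD : ∀ i, ((zeros u).filter fun s => i ∈ s).card ≤ D)
    (K : Submodule ℝ (HW I)) :
    ∑ s ∈ zeros u, ‖K.orthogonalProjectionOnto (ind s)‖ ^ 2 ≤ 3 * D * Module.finrank ℝ K := by
  have b := stdOrthonormalBasis ℝ K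
  have h1 : ∀ s : Finset I, ‖K.orthogonalProjectionOnto (ind s)‖ ^ 2 =
      ∑ i, wt (fun e => (b i : HW I) e) s ^ 2 := by
    intro s
    rw [← b.sum_sq_norm_inner_right (K.orthogonalProjectionOnto (ind s))]
    refine sum_congr rfl fun i _ => ?_
    rw [← ind_inner, Submodule.inner_orthogonalProjectionOnto_eq_of_mem_left, Real.norm_eq_abs,
      sq_abs]
  rw [sum_congr rfl fun s _ => h1 s, sum_comm]
  have h2 : ∀ i, ∑ s ∈ zeros u, wt (fun e => (b i : HW I) e) s ^ 2 ≤ 3 * D := by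
    intro i
    refine (sum_wt_sq hD _).trans (le_of_eq ?_)
    have h3 : ∑ e, (b i : HW I) e ^ 2 = 1 := by
      have h4 : ‖(b i : HW I)‖ = 1 := b.orthonormal.1 i
      have h5 := EuclideanSpace.norm_sq_eq (b i : HW I)
      rw [h4] at h5
      simp only [Real.norm_eq_abs, sq_abs] at h5
      rw [← h5]
      norm_num
    rw [h3, mul_one]
  refine (sum_le_sum fun i _ => h2 i).trans ?_
  rw [sum_const, card_univ, Fintype.card_fin, nsmul_eq_mul]
  exact le_of_eq (by ring)

/-- a triple outside of `V` whose sum can be moved while few linear forms are kept fixed -/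
theorem exists_dir (hu : Function.Injective u) {D : ℕ}
    (hD : ∀ i, ((zeros u).filter fun s => i ∈ s).card ≤ D) (V : Finset (Finset I))
    (Ls : List (I → ℝ)) (h : V.card + 5 * D * Ls.length < (zeros u).card) :
    ∃ t ∈ zeros u, t ∉ V ∧ ∃ v : I → ℝ, (∀ L ∈ Ls, ∑ i, L i * v i = 0) ∧ wt v t = -1 ∧
      ∀ s ∈ zeros u, s ≠ t → -1 < wt v s := by
  classical
  obtain ⟨K, hK⟩ : ∃ K : Submodule ℝ (HW I),
      K = Submodule.span ℝ ((Ls.map (fun L => (WithLp.toLp 2 L : HW I))).toFinset : Set (HW I)) :=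
    ⟨_, rfl⟩
  have hdim : Module.finrank ℝ K ≤ Ls.length := by
    rw [hK]
    refine (finrank_span_finset_le_card _).trans ?_
    refine (List.toFinset_card_le _).trans ?_
    rw [List.length_map]
  have hmem : ∀ L ∈ Ls, (WithLp.toLp 2 L : HW I) ∈ K := by
    intro L hL
    rw [hK]
    apply Submodule.subset_span
    rw [Finset.mem_coe, List.mem_toFinset]
    exact List.mem_map.2 ⟨L, hL, rfl⟩
  -- a triple with small projection
  obtain ⟨t, htz, htV, ht⟩ : ∃ t ∈ zeros u, t ∉ V ∧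
      ‖K.orthogonalProjectionOnto (ind t)‖ ^ 2 < 3 / 5 := by
    by_contra hc
    push Not at hc
    have h1 : zeros u ⊆
        V ∪ (zeros u).filter (fun t => 3 / 5 ≤ ‖K.orthogonalProjectionOnto (ind t)‖ ^ 2) := by
      intro t htz
      rw [mem_union, mem_filter]
      by_cases h2 : t ∈ V
      · exact Or.inl h2
      · exact Or.inr ⟨htz, hc t htz h2⟩
    have h2 := (card_le_card h1).trans (card_union_le _ _)
    have h4 : (3 / 5 : ℝ) * ((zeros u).filter
        (fun t => 3 / 5 ≤ ‖K.orthogonalProjectionOnto (ind t)‖ ^ 2)).card ≤ 3 * D * Ls.length := by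
      have h5 : ∑ t ∈ (zeros u).filter (fun t => 3 / 5 ≤ ‖K.orthogonalProjectionOnto (ind t)‖ ^ 2),
          (3 / 5 : ℝ) ≤ ∑ t ∈ zeros u, ‖K.orthogonalProjectionOnto (ind t)‖ ^ 2 := by
        refine (sum_le_sum fun t ht => (mem_filter.1 ht).2).trans ?_
        exact sum_le_sum_of_subset_of_nonneg (filter_subset _ _) fun t _ _ => sq_nonneg _
      rw [sum_const, nsmul_eq_mul] at h5
      have h6 : (3 * D * Module.finrank ℝ K : ℝ) ≤ 3 * D * Ls.length := by
        have : (Module.finrank ℝ K : ℝ) ≤ Ls.length := by exact_mod_cast hdim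
        exact mul_le_mul_of_nonneg_left this (by positivity)
      linarith [sum_proj hD K]
    have h5 : ((zeros u).filter
        (fun t => 3 / 5 ≤ ‖K.orthogonalProjectionOnto (ind t)‖ ^ 2)).card ≤ 5 * D * Ls.length := by
      have : (((zeros u).filter (fun t => 3 / 5 ≤
          ‖K.orthogonalProjectionOnto (ind t)‖ ^ 2)).card : ℝ) ≤ 5 * D * Ls.length := by linarith
      exact_mod_cast this
    omega
  have ht3 := (mem_zeros.1 htz).1
  refine ⟨t, htz, htV, ?_⟩
  obtain ⟨κ, hκ⟩ : ∃ κ : ℝ, κ = ‖K.orthogonalProjectionOnto (ind t)‖ ^ 2 := ⟨_, rfl⟩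
  obtain ⟨Q, hP⟩ : ∃ Q : HW I, Q = K.orthogonalProjectionOnto (ind t) := ⟨_, rfl⟩
  rw [← hκ] at ht
  have hκ0 : 0 ≤ κ := by rw [hκ]; exact sq_nonneg _
  have hPn : ‖Q‖ ^ 2 = κ := by rw [hP, hκ]; rfl
  have hPt : inner ℝ Q (ind t) = κ := by
    have h1 := Submodule.inner_orthogonalProjectionOnto_eq_of_mem_left (K := K) (𝕜 := ℝ)
      (K.orthogonalProjectionOnto (ind t)) (ind t)
    rw [← hP] at h1
    rw [← h1, real_inner_self_eq_norm_sq, hκ]
  have hPs : ∀ s ∈ zeros u, (inner ℝ Q (ind s)) ^ 2 ≤ 3 * κ := by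
    intro s hs
    have h1 := abs_real_inner_le_norm Q (ind s)
    have h2 : ‖ind s‖ ^ 2 = 3 := by rw [← real_inner_self_eq_norm_sq, ind_self (mem_zeros.1 hs).1]
    have h3 : (inner ℝ Q (ind s)) ^ 2 ≤ (‖Q‖ * ‖ind s‖) ^ 2 := sq_le_sq' (by
      linarith [(abs_le.1 h1).1]) (abs_le.1 h1).2
    calc (inner ℝ Q (ind s)) ^ 2 ≤ (‖Q‖ * ‖ind s‖) ^ 2 := h3
      _ = 3 * κ := by rw [mul_pow, hPn, h2]; ring
  have h3κ : 0 < 3 - κ := by linarith
  obtain ⟨v, hv⟩ : ∃ v : HW I, v = (-(1 / (3 - κ))) • (ind t - Q) := ⟨_, rfl⟩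
  refine ⟨fun e => v e, ?_, ?_, ?_⟩
  · intro L hL
    have h1 : inner ℝ (WithLp.toLp 2 L : HW I) v = 0 := by
      rw [hv, inner_smul_right]
      have h2 : inner ℝ (WithLp.toLp 2 L : HW I) (ind t - Q) = 0 := by
        rw [inner_sub_right, sub_eq_zero]
        have h3 := Submodule.inner_orthogonalProjectionOnto_eq_of_mem_left (K := K) (𝕜 := ℝ)
          ⟨WithLp.toLp 2 L, hmem L hL⟩ (ind t)
        rw [← h3, Submodule.coe_inner, hP]
      rw [h2, mul_zero]
    rw [inner_eq] at h1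
    exact h1
  · rw [← inner_ind, hv, inner_smul_right, inner_sub_right, ind_self ht3, real_inner_comm Q (ind t),
      hPt]
    field_simp
  · intro s hs hst
    rw [← inner_ind, hv, inner_smul_right, inner_sub_right]
    have h1 : inner ℝ (ind s) (ind t) ≤ 1 := by
      rw [inner_ind_ind]
      exact_mod_cast inter_le hu hs htz hst
    have h2 := hPs s hs
    rw [real_inner_comm] at h2
    obtain ⟨y, hy⟩ : ∃ y : ℝ, y = inner ℝ (ind s) Q := ⟨_, rfl⟩
    rw [← hy] at h2 ⊢
    have h3 : -y < 2 - κ := by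
      by_contra h4
      push Not at h4
      have h5 : (2 - κ) ^ 2 ≤ y ^ 2 := by nlinarith
      nlinarith
    have h4 : (inner ℝ (ind s) (ind t) - y) / (3 - κ) < 1 := by
      rw [div_lt_one h3κ]
      linarith
    have h5 : -(1 / (3 - κ)) * (inner ℝ (ind s) (ind t) - y) =
        -((inner ℝ (ind s) (ind t) - y) / (3 - κ)) := by ring
    rw [h5]
    linarith

end Pool.Agent.K9h36.LT
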