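import Mathlib
import Pool.Agent.K9h36.LT.Model

/-!
# Families with many triples: the grids

The lists consist of the numbers `α + ∑ i_l δ_l`, `β + ∑ j_l δ_l`, `-α - β - ∑ k_l δ_l` with
`0 ≤ i_l, j_l < L` and `0 ≤ k_l < 2 L`, `l < d`; the parameters are `α`, `β` and the `δ_l`.
-/

set_option autoImplicit false

namespace Pool.Agent.K9h36.LT

open Finset

/-- the indices of the numbers of the grid family -/
abbrev GI (d L : ℕ) : Type := (Fin d → Fin L) ⊕ ((Fin d → Fin L) ⊕ (Fin d → Fin (2 * L)))

/-- the grid family; the parameters are `α`, `β` (indices `inl 0`, `inl 1`) and the `δ_l` (`inr l`) -/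
noncomputable def grid (d L : ℕ) : GI d L → Fin 2 ⊕ Fin d → ℝ
  | Sum.inl i => Sum.elim ![1, 0] fun l => ((i l : ℕ) : ℝ)
  | Sum.inr (Sum.inl j) => Sum.elim ![0, 1] fun l => ((j l : ℕ) : ℝ)
  | Sum.inr (Sum.inr k) => Sum.elim ![-1, -1] fun l => -((k l : ℕ) : ℝ)

variable {d L : ℕ}

/-- the index of the sum -/
def addI (i j : Fin d → Fin L) : Fin d → Fin (2 * L) := fun l => ⟨i l + j l, by omega⟩

/-- the triples of the grid family -/
def triple (i j : Fin d → Fin L) : Finset (GI d L) :=
  {Sum.inl i, Sum.inr (Sum.inl j), Sum.inr (Sum.inr (addI i j))}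

theorem grid_injective : Function.Injective (grid d L) := by
  intro x y h
  have h0 := congrFun h (Sum.inl 0)
  have h1 := congrFun h (Sum.inl 1)
  have hl : ∀ l, grid d L x (Sum.inr l) = grid d L y (Sum.inr l) := fun l => congrFun h (Sum.inr l)
  rcases x with i | j | k <;> rcases y with i' | j' | k' <;> simp [grid] at h0 h1 hl <;>
    try (exfalso; linarith)
  · congr 1
    funext l
    exact Fin.ext (by exact_mod_cast hl l)
  · congr 2
    funext l
    exact Fin.ext (by exact_mod_cast hl l)
  · congr 2
    funext l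
    exact Fin.ext (by exact_mod_cast hl l)

theorem triple_eq {i j : Fin d → Fin L} {k : Fin d → Fin (2 * L)}
    (h : ∀ l, ((i l : ℕ) : ℝ) + (j l : ℕ) - (k l : ℕ) = 0) :
    ({Sum.inl i, Sum.inr (Sum.inl j), Sum.inr (Sum.inr k)} : Finset (GI d L)) = triple i j := by
  have hk : k = addI i j := by
    funext l
    have h1 := h l
    have h2 : ((i l : ℕ) : ℝ) + (j l : ℕ) = (k l : ℕ) := by linarith
    have h3 : (i l : ℕ) + (j l : ℕ) = (k l : ℕ) := by exact_mod_cast h2
    exact Fin.ext h3.symm
  rw [hk]
  rfl

theorem key (x y z : GI d L) (h : grid d L x + grid d L y + grid d L z = 0) :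
    ∃ i j, ({x, y, z} : Finset (GI d L)) = triple i j := by
  have h0 := congrFun h (Sum.inl 0)
  have h1 := congrFun h (Sum.inl 1)
  have hl : ∀ l, grid d L x (Sum.inr l) + grid d L y (Sum.inr l) + grid d L z (Sum.inr l) = 0 :=
    fun l => congrFun h (Sum.inr l)
  rcases x with i | j | k <;> rcases y with i' | j' | k' <;> rcases z with i'' | j'' | k'' <;>
    simp [grid] at h0 h1 hl <;> try (exfalso; linarith)
  · refine ⟨i, j', triple_eq fun l => ?_⟩
    linarith [hl l]
  · refine ⟨i, j'', ?_⟩
    rw [← triple_eq (k := k') fun l => by linarith [hl l]]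
    ext w
    simp only [mem_insert, mem_singleton]
    tauto
  · refine ⟨i', j, ?_⟩
    rw [← triple_eq (k := k'') fun l => by linarith [hl l]]
    ext w
    simp only [mem_insert, mem_singleton]
    tauto
  · refine ⟨i'', j, ?_⟩
    rw [← triple_eq (k := k') fun l => by linarith [hl l]]
    ext w
    simp only [mem_insert, mem_singleton]
    tauto
  · refine ⟨i', j'', ?_⟩
    rw [← triple_eq (k := k) fun l => by linarith [hl l]]
    ext w
    simp only [mem_insert, mem_singleton]
    tauto
  · refine ⟨i'', j', ?_⟩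
    rw [← triple_eq (k := k) fun l => by linarith [hl l]]
    ext w
    simp only [mem_insert, mem_singleton]
    tauto

theorem mem_zeros_grid {s : Finset (GI d L)} :
    s ∈ zeros (grid d L) ↔ ∃ i j, s = triple i j := by
  rw [mem_zeros]
  constructor
  · rintro ⟨h3, h0⟩
    obtain ⟨x, y, z, hxy, hxz, hyz, rfl⟩ := Finset.card_eq_three.1 h3
    rw [sum_insert (by simp [hxy, hxz]), sum_insert (by simp [hyz]), sum_singleton, ← add_assoc] at h0
    exact key x y z h0
  · rintro ⟨i, j, rfl⟩
    have h1 : (Sum.inl i : GI d L) ≠ Sum.inr (Sum.inl j) := by simp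
    have h2 : (Sum.inl i : GI d L) ≠ Sum.inr (Sum.inr (addI i j)) := by simp
    have h3 : (Sum.inr (Sum.inl j) : GI d L) ≠ Sum.inr (Sum.inr (addI i j)) := by simp
    refine ⟨Finset.card_eq_three.2 ⟨_, _, _, h1, h2, h3, rfl⟩, ?_⟩
    unfold triple
    rw [sum_insert (by simp), sum_insert (by simp), sum_singleton]
    funext p
    rcases p with p | l
    · fin_cases p <;> simp [grid]
    · simp [grid, addI]

theorem triple_inj {i j i' j' : Fin d → Fin L} (h : triple i j = triple i' j') :
    i = i' ∧ j = j' := by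
  have h1 : (Sum.inl i : GI d L) ∈ triple i' j' := by
    rw [← h]
    simp [triple]
  have h2 : (Sum.inr (Sum.inl j) : GI d L) ∈ triple i' j' := by
    rw [← h]
    simp [triple]
  simp [triple] at h1 h2
  exact ⟨h1, h2⟩

theorem card_zeros_grid : (zeros (grid d L)).card = L ^ (2 * d) := by
  classical
  have h : zeros (grid d L) =
      (univ : Finset ((Fin d → Fin L) × (Fin d → Fin L))).image fun a => triple a.1 a.2 := by
    ext s
    rw [mem_zeros_grid, mem_image]
    constructor
    · rintro ⟨i, j, rfl⟩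
      exact ⟨(i, j), mem_univ _, rfl⟩
    · rintro ⟨a, _, rfl⟩
      exact ⟨a.1, a.2, rfl⟩
  rw [h, card_image_of_injective, card_univ, Fintype.card_prod, Fintype.card_pi]
  · simp only [Fintype.card_fin, prod_const, card_univ]
    rw [← pow_add]
    congr 1
    omega
  · intro a b hab
    have := triple_inj hab
    exact Prod.ext this.1 this.2

/-- each index is in at most `L ^ d` triples -/
theorem degree_grid (x : GI d L) : ((zeros (grid d L)).filter fun s => x ∈ s).card ≤ L ^ d := by
  classical
  have hc : ∀ f : (Fin d → Fin L) → Finset (GI d L), (univ.image f).card ≤ L ^ d := by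
    intro f
    refine card_image_le.trans (le_of_eq ?_)
    rw [card_univ, Fintype.card_pi]
    simp
  rcases x with i | j | k
  · refine (card_le_card ?_).trans (hc fun j => triple i j)
    intro s hs
    rw [mem_filter, mem_zeros_grid] at hs
    obtain ⟨⟨i', j', rfl⟩, hx⟩ := hs
    simp [triple] at hx
    rw [hx]
    exact mem_image_of_mem _ (mem_univ _)
  · refine (card_le_card ?_).trans (hc fun i => triple i j)
    intro s hs
    rw [mem_filter, mem_zeros_grid] at hs
    obtain ⟨⟨i', j', rfl⟩, hx⟩ := hs
    simp [triple] at hx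
    rw [hx]
    exact mem_image.2 ⟨i', mem_univ _, rfl⟩
  · refine (card_le_card ?_).trans (hc fun i => triple i fun l =>
      if h : (k l : ℕ) - i l < L then ⟨(k l : ℕ) - i l, h⟩ else i l)
    intro s hs
    rw [mem_filter, mem_zeros_grid] at hs
    obtain ⟨⟨i', j', rfl⟩, hx⟩ := hs
    simp [triple] at hx
    refine mem_image.2 ⟨i', mem_univ _, ?_⟩
    congr 1
    funext l
    have h1 : (k l : ℕ) = i' l + j' l := by rw [hx]; rfl
    have h2 : (k l : ℕ) - i' l = j' l := by omega
    have h3 : (k l : ℕ) - i' l < L := by rw [h2]; exact (j' l).isLt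
    rw [dif_pos h3]
    exact Fin.ext h2

theorem card_GI : Fintype.card (GI d L) = (2 + 2 ^ d) * L ^ d := by
  rw [Fintype.card_sum, Fintype.card_sum, Fintype.card_pi, Fintype.card_pi]
  simp only [Fintype.card_fin, prod_const, card_univ]
  rw [mul_pow]
  ring

end Pool.Agent.K9h36.LT
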