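import Mathlib
import Pool.Agent.K9h36.LT.Alg

/-!
# The lower bound, exhaustive search, and examples of shallow functions
-/

set_option autoImplicit false

namespace Pool.Agent.K9h36.LT

open Filter Topology Finset

variable {I P : Type} [Fintype I] [Fintype P] {u : I → P → ℝ}

/-- the list of the numbers `1 / 3` -/
noncomputable def third : I → ℝ := fun _ => 1 / 3

omit [Fintype I] in
theorem wt_third {s : Finset I} (hs : s.card = 3) : wt (third : I → ℝ) s = 1 := by
  unfold wt third
  rw [Finset.sum_const, hs]
  norm_num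

/-- near a generic list of the family the numbers are distinct and only the designated sums are
small -/
def Nice (u : I → P → ℝ) (x : I → ℝ) : Prop :=
  Function.Injective x ∧ ∀ s : Finset I, s.card = 3 → s ∉ zeros u → wt x s ≠ 0

theorem nice_near {x : I → ℝ} (h : Nice u x) : ∀ᶠ z in 𝓝 x, Nice u z := by
  have h1 : ∀ᶠ z in 𝓝 x, ∀ a : I × I, a.1 ≠ a.2 → z a.1 ≠ z a.2 := by
    refine eventually_all.2 fun a => ?_
    by_cases ha : a.1 = a.2
    · exact Eventually.of_forall fun z h => absurd ha h
    · have hc : ContinuousAt (fun z : I → ℝ => z a.1 - z a.2) x := by fun_prop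
      have h0 : x a.1 - x a.2 ≠ 0 := sub_ne_zero.2 fun h' => ha (h.1 h')
      filter_upwards [hc.eventually_ne h0] with z hz _
      exact sub_ne_zero.1 hz
  have h2 : ∀ᶠ z in 𝓝 x, ∀ s : Finset I, s.card = 3 → s ∉ zeros u → wt z s ≠ 0 := by
    refine eventually_all.2 fun s => ?_
    by_cases hs : s.card = 3 ∧ s ∉ zeros u
    · filter_upwards [(wt_continuous s).continuousAt.eventually_ne (h.2 s hs.1 hs.2)] with z hz _ _
      exact hz
    · exact Eventually.of_forall fun z h1 h2 => absurd ⟨h1, h2⟩ hs
  filter_upwards [h1, h2] with z hz1 hz2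
  refine ⟨fun a b hab => ?_, hz2⟩
  by_contra hne
  exact hz1 (a, b) hne hab

omit [Fintype I] in
theorem inj_residual [Finite I] (hu : Function.Injective u) :
    ∀ᶠ y in residual (P → ℝ), Function.Injective (fam u y) := by
  have h1 : ∀ᶠ y in residual (P → ℝ), ∀ a : I × I, a.1 ≠ a.2 → fam u y a.1 ≠ fam u y a.2 := by
    refine eventually_countable_forall.2 fun a => ?_
    by_cases ha : a.1 = a.2
    · exact Eventually.of_forall fun z h => absurd ha h
    · have hw : u a.1 - u a.2 ≠ 0 := sub_ne_zero.2 fun h' => ha (hu h')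
      filter_upwards [lin_residual hw] with y hy _ h
      apply hy
      unfold fam at h
      simp only [Pi.sub_apply, sub_mul, Finset.sum_sub_distrib]
      rw [h, sub_self]
  filter_upwards [h1] with y hy a b hab
  by_contra hne
  exact hy (a, b) hne hab

/-- the lower bound -/
theorem lower [DecidableEq I] (hu : Function.Injective u) {D : ℕ}
    (hD : ∀ i, ((zeros u).filter fun s => i ∈ s).card ≤ D) {ι : Type} [Finite ι] (t : ι → Tree u)
    (sound : ∀ i x, Function.Injective x → (t i).run x = true →
      ∀ s : Finset I, s.card = 3 → wt x s ≠ 0) :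
    ∃ x : I → ℝ, Function.Injective x ∧ (∀ s : Finset I, s.card = 3 → wt x s ≠ 0) ∧
      ∀ i, (t i).run x = true → (zeros u).card ≤ (t i).tris x + 5 * D * (t i).lins x := by
  obtain ⟨y, hy, hinj, hreg⟩ : ∃ y : P → ℝ, (∀ i, Good (t i) y) ∧ Function.Injective (fam u y) ∧
      ∀ s : Finset I, s.card = 3 → s ∉ zeros u → wt (fam u y) s ≠ 0 :=
    (dense_of_mem_residual ((eventually_countable_forall.2 fun i => good (t i)).and
      ((inj_residual hu).and reg_residual))).nonempty
  have hnice := nice_near (u := u) ⟨hinj, hreg⟩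
  choose V Ls b h using fun i => hy i third
  have h1 : ∀ᶠ ε in 𝓝[>] (0 : ℝ), ∀ i, (t i).run (fam u y + ε • third) = b i ∧
      (t i).tris (fam u y + ε • third) = (V i).length ∧
      (t i).lins (fam u y + ε • third) = (Ls i).length :=
    eventually_all.2 fun i => h i third (fun _ _ _ => rfl) (fun _ _ => rfl)
  obtain ⟨ε, ⟨h2, hn⟩, hε⟩ := ((h1.and ((tendsto_line (fam u y) third).eventually hnice)).and
    self_mem_nhdsWithin).exists
  have hε' : 0 < ε := hε
  refine ⟨fam u y + ε • third, hn.1, ?_, ?_⟩
  · intro s hs
    by_cases hz : s ∈ zeros u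
    · rw [wt_add_smul y ε third hz, wt_third hs, mul_one]
      exact hε'.ne'
    · exact hn.2 s hs hz
  · intro i hi
    obtain ⟨h3, h4, h5⟩ := h2 i
    rw [h4, h5]
    by_contra hc
    push Not at hc
    have hb : b i = true := by rw [← h3, hi]
    obtain ⟨τ, hτz, hτ, v, hL, hv, hs⟩ := exists_dir hu hD (V i).toFinset (Ls i)
      (lt_of_le_of_lt (Nat.add_le_add_right (List.toFinset_card_le _) _) hc)
    have hτ3 := (mem_zeros.1 hτz).1
    have h6 := h i (third + v) (by
      intro s hsV hsz
      have hne : s ≠ τ := by
        rintro rfl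
        exact hτ (List.mem_toFinset.2 hsV)
      rw [wt_add, wt_third (mem_zeros.1 hsz).1, sign_pos (by linarith [hs s hsz hne]),
        sign_pos one_pos]) (by
      intro L hLi
      have := hL L hLi
      simp only [Pi.add_apply, mul_add, Finset.sum_add_distrib]
      rw [this, add_zero])
    obtain ⟨δ, h7, hn'⟩ :=
      (h6.and ((tendsto_line (fam u y) (third + v)).eventually hnice)).exists
    refine sound i _ hn'.1 (h7.1.trans hb) τ hτ3 ?_
    rw [wt_add_smul y δ _ hτz, wt_add, wt_third hτ3, hv]
    ring

/-! ### examples of shallow functions -/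

omit [Fintype I] in
theorem fam_add (y z : P → ℝ) : fam u (y + z) = fam u y + fam u z := by
  funext i
  unfold fam
  simp only [Pi.add_apply, mul_add, Finset.sum_add_distrib]

omit [Fintype I] in
theorem fam_smul (c : ℝ) (y : P → ℝ) : fam u (c • y) = c • fam u y := by
  funext i
  unfold fam
  simp only [Pi.smul_apply, smul_eq_mul, Finset.mul_sum]
  exact Finset.sum_congr rfl fun p _ => by ring

/-- the family as a continuous linear map -/
noncomputable def famL (u : I → P → ℝ) : (P → ℝ) →L[ℝ] (I → ℝ) :=
  { toFun := fam u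
    map_add' := fam_add
    map_smul' := fun c y => fam_smul c y
    cont := fam_continuous }

theorem dense_ne {g : (I → ℝ) → ℝ} (hg : AnalyticOnNhd ℝ g Set.univ) {y₀ : P → ℝ}
    (h : g (fam u y₀) ≠ 0) : Dense {y | g (fam u y) ≠ 0} := by
  have ha : AnalyticOnNhd ℝ (fun y => g (fam u y)) Set.univ := by
    intro y _
    exact (hg (fam u y) (Set.mem_univ _)).fun_comp ((famL u).analyticAt y)
  by_contra hd
  have h1 : ∃ y, y ∉ closure {y | g (fam u y) ≠ 0} := by
    by_contra hc
    push Not at hc
    exact hd hc
  obtain ⟨y, hy⟩ := h1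
  have h2 : (fun y => g (fam u y)) =ᶠ[𝓝 y] 0 := by
    have h3 : (closure {y | g (fam u y) ≠ 0})ᶜ ∈ 𝓝 y := isClosed_closure.isOpen_compl.mem_nhds hy
    filter_upwards [h3] with z hz
    by_contra h4
    exact hz (subset_closure h4)
  have h3 := ha.eqOn_zero_of_preconnected_of_eventuallyEq_zero isPreconnected_univ
    (Set.mem_univ y) h2
  exact h (h3 (Set.mem_univ y₀))

/-- the sign of an analytic function which does not vanish on the whole family -/
theorem shallow_sign {g : (I → ℝ) → ℝ} (hg : AnalyticOnNhd ℝ g Set.univ)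
    (h : ∃ y, g (fam u y) ≠ 0) : Shallow u fun x => ((SignType.sign (g x) : SignType) : ℤ) := by
  obtain ⟨y₀, h0⟩ := h
  refine (dense_ne hg h0).mono fun y hy => ?_
  have hc : ContinuousAt g (fam u y) := (hg (fam u y) (Set.mem_univ _)).continuousAt
  have hy' : g (fam u y) ≠ 0 := hy
  show ∀ᶠ x in 𝓝 (fam u y), ((SignType.sign (g x) : SignType) : ℤ) =
    (SignType.sign (g (fam u y)) : SignType)
  rcases lt_or_gt_of_ne hy' with h1 | h1
  · filter_upwards [hc.eventually (gt_mem_nhds h1)] with x hx
    rw [sign_neg hx, sign_neg h1]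
  · filter_upwards [hc.eventually (lt_mem_nhds h1)] with x hx
    rw [sign_pos hx, sign_pos h1]

/-- the integer part of an analytic function which is not integral on the whole family -/
theorem shallow_floor {g : (I → ℝ) → ℝ} (hg : AnalyticOnNhd ℝ g Set.univ)
    (h : ∃ y, ∀ m : ℤ, g (fam u y) ≠ m) : Shallow u fun x => ⌊g x⌋ := by
  obtain ⟨y₀, h0⟩ := h
  have hs : AnalyticOnNhd ℝ (fun x => Real.sin (Real.pi * g x)) Set.univ := by
    intro x hx
    exact Real.analyticAt_sin.fun_comp (analyticAt_const.mul (hg x hx))
  have h0' : Real.sin (Real.pi * g (fam u y₀)) ≠ 0 := by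
    intro h1
    obtain ⟨m, hm⟩ := Real.sin_eq_zero_iff.1 h1
    exact h0 m (mul_left_cancel₀ Real.pi_ne_zero (by linarith))
  refine (dense_ne (g := fun x => Real.sin (Real.pi * g x)) hs h0').mono fun y hy => ?_
  have hc : ContinuousAt g (fam u y) := (hg (fam u y) (Set.mem_univ _)).continuousAt
  have h1 : (⌊g (fam u y)⌋ : ℝ) < g (fam u y) := by
    refine lt_of_le_of_ne (Int.floor_le _) ?_
    intro h2
    apply hy
    show Real.sin (Real.pi * g (fam u y)) = 0
    rw [← h2, mul_comm]
    exact Real.sin_int_mul_pi _
  have h2 : g (fam u y) < ⌊g (fam u y)⌋ + 1 := Int.lt_floor_add_one _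
  show ∀ᶠ x in 𝓝 (fam u y), ⌊g x⌋ = ⌊g (fam u y)⌋
  filter_upwards [hc.eventually (lt_mem_nhds h1), hc.eventually (gt_mem_nhds h2)] with x h3 h4
  rw [Int.floor_eq_iff]
  exact ⟨h3.le, h4⟩

/-! ### exhaustive search -/

theorem shallow_wt {s : Finset I} (hs : s.card = 3) (hz : s ∉ zeros u) :
    Shallow u fun x => ((SignType.sign (wt x s) : SignType) : ℤ) := by
  refine shallow_sign (g := fun x => wt x s) ?_ ?_
  · have h : (fun x : I → ℝ => wt x s) = fun x => ∑ i ∈ s, x i := rfl
    rw [h]
    intro x _
    refine Finset.analyticAt_fun_sum s fun i _ => ?_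
    exact (ContinuousLinearMap.proj (R := ℝ) (φ := fun _ : I => ℝ) i).analyticAt x
  · obtain ⟨y, hy⟩ := (dense_of_mem_residual (reg_residual (I := I) (u := u))).nonempty
    exact ⟨y, hy s hs hz⟩

/-- testing a list of sets: the designated triples with `tri`, the other ones with `free` -/
noncomputable def search (u : I → P → ℝ) : List {s : Finset I // s.card = 3} → Tree u
  | [] => .leaf true
  | s :: l => open Classical in
    if hz : s.1 ∈ zeros u then
      .tri s.1 s.2 fun r => if r = 0 then .leaf false else search u l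
    else .free (fun x => ((SignType.sign (wt x s.1) : SignType) : ℤ)) (shallow_wt s.2 hz)
      fun r => if r = 0 then .leaf false else search u l

theorem search_spec (l : List {s : Finset I // s.card = 3}) (x : I → ℝ) :
    ((search u l).run x = true ↔ ∀ s ∈ l, wt x s.1 ≠ 0) ∧
      (search u l).tris x ≤ (open Classical in (l.filter fun s => s.1 ∈ zeros u).length) ∧
      (search u l).lins x = 0 := by
  classical
  induction l with
  | nil => exact ⟨by simp [search, Tree.run], le_rfl, rfl⟩
  | cons s l ih =>
    unfold search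
    by_cases hz : s.1 ∈ zeros u
    · rw [dif_pos hz]
      unfold Tree.run Tree.tris Tree.lins
      beta_reduce
      rw [List.filter_cons_of_pos (by simpa using hz), List.length_cons]
      by_cases h : SignType.sign (wt x s.1) = 0
      · rw [if_pos h]
        refine ⟨?_, ?_, rfl⟩
        · simp only [Tree.run, Bool.false_eq_true, List.mem_cons, forall_eq_or_imp, false_iff,
            not_and]
          intro h1
          exact absurd (sign_eq_zero_iff.1 h) h1
        · simp [Tree.tris]
      · rw [if_neg h]
        refine ⟨?_, ?_, ih.2.2⟩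
        · rw [ih.1]
          simp only [List.mem_cons, forall_eq_or_imp]
          constructor
          · intro h1
            exact ⟨fun h2 => h (sign_eq_zero_iff.2 h2), h1⟩
          · exact fun h1 => h1.2
        · exact Nat.add_le_add_right ih.2.1 1
    · rw [dif_neg hz]
      unfold Tree.run Tree.tris Tree.lins
      beta_reduce
      rw [List.filter_cons_of_neg (by simpa using hz)]
      by_cases h : ((SignType.sign (wt x s.1) : SignType) : ℤ) = 0
      · rw [if_pos h]
        have h0 : wt x s.1 = 0 := by
          by_contra hne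
          rcases lt_or_gt_of_ne hne with h1 | h1
          · rw [sign_neg h1] at h
            simp at h
          · rw [sign_pos h1] at h
            simp at h
        refine ⟨?_, Nat.zero_le _, rfl⟩
        simp only [Tree.run, Bool.false_eq_true, List.mem_cons, forall_eq_or_imp, false_iff,
          not_and]
        intro h1
        exact absurd h0 h1
      · rw [if_neg h]
        refine ⟨?_, ih.2.1, ih.2.2⟩
        rw [ih.1]
        simp only [List.mem_cons, forall_eq_or_imp]
        constructor
        · intro h1
          refine ⟨fun h2 => h ?_, h1⟩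
          rw [h2, sign_zero]
          rfl
        · exact fun h1 => h1.2

/-- exhaustive search -/
theorem upper (u : I → P → ℝ) : ∃ t : Tree u, ∀ x : I → ℝ,
    (t.run x = true ↔ ∀ s : Finset I, s.card = 3 → wt x s ≠ 0) ∧
      t.tris x ≤ (zeros u).card ∧ t.lins x = 0 := by
  classical
  refine ⟨search u (univ : Finset {s : Finset I // s.card = 3}).toList, fun x => ?_⟩
  obtain ⟨h1, h2, h3⟩ := search_spec (u := u) (univ : Finset {s : Finset I // s.card = 3}).toList x
  refine ⟨?_, ?_, h3⟩
  · rw [h1]
    constructor
    · intro h s hs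
      exact h ⟨s, hs⟩ (by simp)
    · intro h s _
      exact h s.1 s.2
  · refine h2.trans ?_
    have h4 : (((univ : Finset {s : Finset I // s.card = 3}).toList.filter
        fun s => s.1 ∈ zeros u).map Subtype.val).Nodup := by
      refine List.Nodup.map Subtype.val_injective ?_
      exact (Finset.nodup_toList _).filter _
    have h5 : (((univ : Finset {s : Finset I // s.card = 3}).toList.filter
        fun s => s.1 ∈ zeros u).map Subtype.val).toFinset ⊆ zeros u := by
      intro s hs
      rw [List.mem_toFinset, List.mem_map] at hs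
      obtain ⟨a, ha, rfl⟩ := hs
      simpa using (List.mem_filter.1 ha).2
    have h6 := Finset.card_le_card h5
    rw [List.toFinset_card_of_nodup h4, List.length_map] at h6
    exact h6

end Pool.Agent.K9h36.LT
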